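import Pool.Agent.TetVol.Scale

/-!
# Integer-edged tetrahedra of volume `3m` for a positive proportion of all `m`

`Pool.Agent.TetVol.IsIntTetVol V` says that there are four affinely independent points of Euclidean 3-space whose
six distances are positive integers and whose convex hull has Lebesgue measure `V`.
-/

namespace Pool.Agent.Results.MP_bed894_nt.ParabolaFamilies

open Pool.Agent.TetVol

/-- The residue classes covered by the families: about 14.46 percent of all integers. -/
def Good (m : ℕ) : Prop :=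
  20 ∣ m ∨ 48 ∣ m ∨ 84 ∣ m ∨ m % 40 = 4 ∨ m % 40 = 36 ∨ m % 80 = 32 ∨ m % 80 = 48 ∨ m % 512 = 256 ∨
    m % 560 = 168 ∨ m % 560 = 392 ∨ m % 616 = 308 ∨ m % 640 = 256 ∨ m % 640 = 384 ∨
    m % 1080 = 108 ∨ m % 1080 = 972

theorem good {m : ℕ} (hm : 0 < m) (h : Good m) : IsIntTetVol (3 * (m : ℝ)) := by
  have key : ∀ M c : ℕ, m % M = c → m = M * (m / M) + c := fun M c hc => by
    have := Nat.div_add_mod m M
    omega
  rcases h with h | h | h | h | h | h | h | h | h | h | h | h | h | h | h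
  · obtain ⟨j, rfl⟩ := h
    exact fam_20_0 j (by omega)
  · obtain ⟨j, rfl⟩ := h
    exact fam_48_0 j (by omega)
  · have h5 : m % 420 = 0 ∨ m % 420 = 84 ∨ m % 420 = 168 ∨ m % 420 = 252 ∨ m % 420 = 336 := by omega
    rcases h5 with h5 | h5 | h5 | h5 | h5
    · obtain ⟨j, rfl⟩ : 20 ∣ m := by omega
      exact fam_20_0 j (by omega)
    · rw [key _ _ h5]; exact fam_420_84 _
    · rw [key _ _ h5]; exact fam_420_168 _
    · rw [key _ _ h5]; exact fam_420_252 _
    · rw [key _ _ h5]; exact fam_420_336 _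
  · rw [key _ _ h]; exact fam_40_4 _
  · rw [key _ _ h]; exact fam_40_36 _
  · rw [key _ _ h]; exact fam_80_32 _
  · rw [key _ _ h]; exact fam_80_48 _
  · rw [key _ _ h]; exact fam_512_256 _
  · rw [key _ _ h]; exact fam_560_168 _
  · rw [key _ _ h]; exact fam_560_392 _
  · rw [key _ _ h]; exact fam_616_308 _
  · rw [key _ _ h]; exact fam_640_256 _
  · rw [key _ _ h]; exact fam_640_384 _
  · rw [key _ _ h]; exact fam_1080_108 _
  · rw [key _ _ h]; exact fam_1080_972 _

theorem result (m k : ℕ) (hm : 0 < m) (hk : 0 < k) (h : Good m) :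
    IsIntTetVol (3 * ((k ^ 3 * m : ℕ) : ℝ)) := by
  have h1 := scale (good hm h) k hk
  have e : (3 * ((k ^ 3 * m : ℕ) : ℝ)) = (k : ℝ) ^ 3 * (3 * (m : ℝ)) := by
    push_cast
    ring
  rw [e]
  exact h1

end Pool.Agent.Results.MP_bed894_nt.ParabolaFamilies
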